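import Mathlib

/-!
Over every field of characteristic `2` there is a three-dimensional simple right alternative,
non-alternative, Malcev-admissible (even Lie-admissible) algebra:
`e₀e₂ = e₁`, `e₁e₁ = e₁`, `e₂e₀ = e₁`, `e₂e₁ = e₂`, `e₂e₂ = e₀`, other products zero.
-/

namespace Pool.Agent.Results.MP_a52033_al.CharTwo

section
variable {F A : Type} [Field F] [AddCommGroup A] [Module F A] (m : A →ₗ[F] A →ₗ[F] A)

/-- the product `xy` -/
def pr (x y : A) : A := m x y

/-- commutator `[x, y] = xy - yx` -/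
def br (x y : A) : A := pr m x y - pr m y x

/-- `A² ≠ 0` and the only two-sided ideals are `0` and `A` -/
def IsSimple : Prop := (∃ x y, pr m x y ≠ 0) ∧
  ∀ I : Submodule F A, (∀ x ∈ I, ∀ y, pr m x y ∈ I ∧ pr m y x ∈ I) → I = ⊥ ∨ I = ⊤

/-- `(xy)y = x(yy)` -/
def IsRightAlt : Prop := ∀ x y, pr m (pr m x y) y = pr m x (pr m y y)

/-- `(xx)y = x(xy)` and `(xy)y = x(yy)` -/
def IsAlt : Prop := (∀ x y, pr m (pr m x x) y = pr m x (pr m x y)) ∧ IsRightAlt m

/-- the commutator algebra is a Malcev algebra -/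
def IsMalcevAdm : Prop := (∀ x, br m x x = 0) ∧
  ∀ x y z, br m (br m x y) (br m x z) = br m (br m (br m x y) z) x +
    br m (br m (br m y z) x) x + br m (br m (br m z x) x) y

end

def mu (F : Type) [Field F] : (F × F × F) →ₗ[F] (F × F × F) →ₗ[F] (F × F × F) :=
  LinearMap.mk₂ F (fun x y => (x.2.2 * y.2.2, x.1 * y.2.2 + x.2.1 * y.2.1 + x.2.2 * y.1,
    x.2.2 * y.2.1))
    (fun _ _ _ => by ext <;> simp <;> ring) (fun _ _ _ => by ext <;> simp <;> ring)
    (fun _ _ _ => by ext <;> simp <;> ring) (fun _ _ _ => by ext <;> simp <;> ring)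

theorem mu_apply {F : Type} [Field F] (x y : F × F × F) : pr (mu F) x y =
    (x.2.2 * y.2.2, x.1 * y.2.2 + x.2.1 * y.2.1 + x.2.2 * y.1, x.2.2 * y.2.1) := rfl

theorem result (F : Type) [Field F] [CharP F 2] :
    ∃ (A : Type) (_ : AddCommGroup A) (_ : Module F A) (m : A →ₗ[F] A →ₗ[F] A),
      Module.finrank F A = 3 ∧ IsSimple m ∧ IsRightAlt m ∧ ¬ IsAlt m ∧ IsMalcevAdm m := by
  have h2 : (2 : F) = 0 := CharTwo.two_eq_zero
  refine ⟨F × F × F, inferInstance, inferInstance, mu F, by simp,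
    ⟨⟨(0, 1, 0), (0, 1, 0), by simp [mu_apply]⟩, fun I hI => ?_⟩, fun x y => ?_, fun h => ?_,
    fun x => sub_self _, fun x y z => ?_⟩
  · rw [or_iff_not_imp_left]
    intro hne
    obtain ⟨⟨a, b, c⟩, hx, hx0⟩ := (Submodule.ne_bot_iff I).1 hne
    have h1 : ((0, 1, 0) : F × F × F) ∈ I := by
      have k1 := (hI _ hx (0, 1, 0)).2
      have k2 := (hI _ hx (1, 0, 0)).2
      have k3 := (hI _ (hI _ hx (0, 0, 1)).1 (0, 1, 0)).1
      simp only [mu_apply] at k1 k2 k3
      by_cases hb : b = 0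
      · by_cases hc : c = 0
        · have ha : a ≠ 0 := by rintro rfl; exact hx0 (by simp [hb, hc])
          simpa [ha] using I.smul_mem a⁻¹ k3
        · simpa [hc] using I.smul_mem c⁻¹ k2
      · simpa [hb] using I.smul_mem b⁻¹ k1
    have h3 : ((0, 0, 1) : F × F × F) ∈ I := by simpa [mu_apply] using (hI _ h1 (0, 0, 1)).2
    have h0 : ((1, 0, 0) : F × F × F) ∈ I := by simpa [mu_apply] using (hI _ h3 (0, 0, 1)).2
    rw [eq_top_iff]
    rintro ⟨p, q, r⟩ -
    simpa using I.add_mem (I.smul_mem p h0) (I.add_mem (I.smul_mem q h1) (I.smul_mem r h3))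
  · ext <;> simp only [mu_apply] <;> grind
  · have := h.1 (0, 0, 1) (0, 1, 0)
    simp [mu_apply] at this
  · ext <;> simp only [br, mu_apply, Prod.fst_sub, Prod.snd_sub, Prod.fst_add, Prod.snd_add] <;>
      grind

end Pool.Agent.Results.MP_a52033_al.CharTwo
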